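import Pool.Agent.Lib.MP_e13bdd_an.FS.Num

/-! The dyadic odometer. -/

namespace Pool.Agent.Lib.MP_e13bdd_an.FS

open MeasureTheory Filter

theorem jj_lt (k : ℕ) (z : ℤ_[2]) : jj k z < N k := ZMod.val_lt _

theorem jj_mod (k : ℕ) (z : ℤ_[2]) : jj (k + 1) z % N k = jj k z := by
  have hle : ex k ≤ ex (k + 1) := Nat.pow_le_pow_right (by norm_num) (by omega)
  have h := congrArg (fun f : ℤ_[2] →+* ZMod (2 ^ ex k) => f z)
    (PadicInt.zmod_cast_comp_toZModPow (p := 2) (ex k) (ex (k + 1)) hle)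
  simp only [RingHom.comp_apply, ZMod.castHom_apply] at h
  unfold jj pk N
  rw [← h, ZMod.cast_eq_val, ZMod.val_natCast]

theorem jj_succ (k : ℕ) (z : ℤ_[2]) (j : ℕ) (h1 : 1 ≤ j) (hj : j < N k) :
    j = jj k (1 + z) ↔ j - 1 = jj k z := by
  have hN : 1 < 2 ^ ex k := by
    have := N_ge k
    unfold N at this
    omega
  have : Fact (1 < 2 ^ ex k) := ⟨hN⟩
  have hz := jj_lt k z
  have e : jj k (1 + z) = (1 + jj k z) % N k := by
    unfold jj N
    rw [map_add, map_one, ZMod.val_add, ZMod.val_one]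
  rw [e]
  rcases Nat.lt_or_ge (1 + jj k z) (N k) with h | h
  · rw [Nat.mod_eq_of_lt h]
    omega
  · have h2 : 1 + jj k z = N k := by omega
    rw [h2, Nat.mod_self]
    omega

theorem jj_locConst (k : ℕ) : IsLocallyConstant (jj k) := (pk_locConst (ex k)).comp ZMod.val

lemma Base_fiber (K J : ℕ) (hJ : J < N K) :
    PP {z | jj K z = J} = ENNReal.ofReal (1 / (N K : ℝ)) := by
  have e : {z | jj K z = J} = pk (ex K) ⁻¹' {(J : ZMod (2 ^ ex K))} := by
    ext z
    simp only [Set.mem_ofPred_eq, Set.mem_preimage, Set.mem_singleton_iff, jj]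
    constructor
    · intro h
      rw [← h, ZMod.natCast_zmod_val]
    · intro h
      rw [h, ZMod.val_natCast]
      exact Nat.mod_eq_of_lt hJ
  rw [e, fiber_eq, fiber_zero]
  unfold N
  push_cast
  rw [one_div, ← inv_pow, ENNReal.ofReal_pow (by norm_num), ENNReal.ofReal_inv_of_pos (by norm_num)]
  simp

theorem meas_bad (m : ℕ) : PP {z | ¬ Gd m z} ≤ ENNReal.ofReal (6 / (N m : ℝ) ^ 2) := by
  have hb := N_big m
  have hp : (0 : ℝ) < N m := by
    have := N_ge m
    exact_mod_cast (by omega : 0 < N m)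
  set S : Finset ℕ := Finset.range (5 * N m) ∪ Finset.Ico (N (m + 1) - N m) (N (m + 1)) with hS
  have hsub : {z | ¬ Gd m z} ⊆ ⋃ J ∈ S, {z | jj (m + 1) z = J} := by
    intro z hz
    have h1 := jj_lt (m + 1) z
    simp only [Set.mem_ofPred_eq, Gd, not_and, not_lt] at hz
    simp only [Set.mem_iUnion, Set.mem_ofPred_eq, exists_prop]
    refine ⟨_, ?_, rfl⟩
    simp only [hS, Finset.mem_union, Finset.mem_range, Finset.mem_Ico]
    by_cases h5 : 5 * N m ≤ jj (m + 1) z
    · have := hz h5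
      omega
    · omega
  have hlt : ∀ J ∈ S, J < N (m + 1) := by
    intro J hJ
    simp only [hS, Finset.mem_union, Finset.mem_range, Finset.mem_Ico] at hJ
    omega
  have hcard : S.card ≤ 6 * N m := by
    refine (Finset.card_union_le _ _).trans ?_
    rw [Finset.card_range, Nat.card_Ico]
    omega
  refine (measure_mono hsub).trans ((measure_biUnion_finset_le _ _).trans ?_)
  rw [Finset.sum_congr rfl fun J hJ => Base_fiber (m + 1) J (hlt J hJ), Finset.sum_const,
    nsmul_eq_mul, ← ENNReal.ofReal_natCast, ← ENNReal.ofReal_mul (Nat.cast_nonneg _)]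
  refine ENNReal.ofReal_le_ofReal ?_
  have hc : (S.card : ℝ) ≤ 6 * N m := by exact_mod_cast hcard
  rw [N_succ]
  push_cast
  calc (S.card : ℝ) * (1 / (N m : ℝ) ^ 3) ≤ 6 * N m * (1 / (N m : ℝ) ^ 3) := by gcongr
    _ = 6 / (N m : ℝ) ^ 2 := by field_simp

theorem meas_fiber (K J : ℕ) (hJ : J < N K) :
    PP {z | jj K z = J} = ENNReal.ofReal (1 / (N K : ℝ)) := by
  exact Base_fiber K J hJ

lemma Base_grow (K n : ℕ) : 2 ^ n * N K ≤ N (K + n) := by
  induction n with
  | zero => simp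
  | succ n ih =>
    have := N_big (K + n)
    rw [← add_assoc, pow_succ]
    nlinarith

lemma Base_tail (K : ℕ) :
    (∑' n, PP {z | ¬ Gd (K + n) z}) ≤ ENNReal.ofReal (12 / (N K : ℝ) ^ 2) := by
  have hp : (0 : ℝ) < N K := by
    have := N_ge K
    exact_mod_cast (by omega : 0 < N K)
  have h1 : ∀ n, PP {z | ¬ Gd (K + n) z} ≤
      ENNReal.ofReal (6 / (N K : ℝ) ^ 2 * (1 / 2) ^ n) := by
    intro n
    refine (meas_bad (K + n)).trans (ENNReal.ofReal_le_ofReal ?_)
    have hg : (2 : ℝ) ^ n * N K ≤ N (K + n) := by exact_mod_cast Base_grow K n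
    have h2 : (1 : ℝ) ≤ 2 ^ n := one_le_pow₀ (by norm_num)
    have h3 : (N K : ℝ) ^ 2 * 2 ^ n ≤ (N (K + n) : ℝ) ^ 2 :=
      calc (N K : ℝ) ^ 2 * 2 ^ n ≤ (N K : ℝ) ^ 2 * (2 ^ n * 2 ^ n) := by
            gcongr
            exact le_mul_of_one_le_right (by positivity) h2
        _ = ((2 : ℝ) ^ n * (N K : ℝ)) ^ 2 := by ring
        _ ≤ _ := by gcongr
    calc 6 / (N (K + n) : ℝ) ^ 2 ≤ 6 / ((N K : ℝ) ^ 2 * 2 ^ n) := by gcongr
      _ = _ := by
        rw [one_div, inv_pow]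
        field_simp
  refine (ENNReal.tsum_le_tsum h1).trans ?_
  rw [← ENNReal.ofReal_tsum_of_nonneg (fun n => by positivity)
    (summable_geometric_two.mul_left _), tsum_mul_left, tsum_geometric_two]
  refine ENNReal.ofReal_le_ofReal (le_of_eq ?_)
  ring

theorem ae_gd : ∀ᵐ z ∂PP, ∃ K, ∀ m, K ≤ m → Gd m z := by
  have h : (∑' n, PP {z | ¬ Gd n z}) ≠ ⊤ := by
    have := Base_tail 0
    simp only [zero_add] at this
    exact ne_top_of_le_ne_top ENNReal.ofReal_ne_top this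
  filter_upwards [ae_eventually_notMem h] with z hz
  obtain ⟨K, hK⟩ := eventually_atTop.1 hz
  exact ⟨K, fun m hm => by simpa using hK m hm⟩

theorem pos_E (K J : ℕ) (hJ : J < N K) : PP {z | jj K z = J ∧ ∀ m, K ≤ m → Gd m z} ≠ 0 := by
  intro h0
  have hN : (512 : ℝ) ≤ N K := by exact_mod_cast N_ge K
  have hsub : {z | jj K z = J} ⊆
      {z | jj K z = J ∧ ∀ m, K ≤ m → Gd m z} ∪ ⋃ n, {z | ¬ Gd (K + n) z} := by
    intro z hz
    by_cases h : ∀ m, K ≤ m → Gd m z
    · exact Or.inl ⟨hz, h⟩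
    · right
      push Not at h
      obtain ⟨m, hm, hg⟩ := h
      obtain ⟨n, rfl⟩ := Nat.exists_eq_add_of_le hm
      exact Set.mem_iUnion.2 ⟨n, hg⟩
  have h1 := (measure_mono (μ := PP) hsub).trans (measure_union_le _ _)
  rw [h0, zero_add, meas_fiber K J hJ] at h1
  have h2 := h1.trans ((measure_iUnion_le _).trans (Base_tail K))
  rw [ENNReal.ofReal_le_ofReal_iff (by positivity), div_le_div_iff₀ (by positivity)
    (by positivity)] at h2
  nlinarith

theorem ergodic_add : Ergodic (fun z : ℤ_[2] => 1 + z) PP := by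
  refine ergodic_add_left_of_denseRange_zsmul ?_ PP
  have : (fun n : ℤ => n • (1 : ℤ_[2])) = (fun n : ℤ => (n : ℤ_[2])) := by
    ext n; simp
  rw [this]
  exact PadicInt.denseRange_intCast

end Pool.Agent.Lib.MP_e13bdd_an.FS
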