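import Pool.Agent.Lib.MP_e13bdd_an.FS.Chain
import Pool.Agent.Lib.MP_e13bdd_an.FS.Base

/-! The vectors attached to dyadic integers. -/

namespace Pool.Agent.Lib.MP_e13bdd_an.FS

open Filter Topology

lemma point_wt (k : ℕ) (z : ℤ_[2]) (h1 : Gd (k + 1) z) (h0 : jj (k + 1) z + N k < N (k + 1)) :
    wt (k + 2) (jj (k + 2) z) = (1 / 2) ^ (k + 2) := by
  refine wt_light2 k _ h1.1 ?_
  rw [show jj (k + 2) z % N (k + 1) = jj (k + 1) z from jj_mod (k + 1) z]
  exact h0

lemma point_pr (m : ℕ) (z : ℤ_[2]) (h : Gd m z) (i : ℕ) (hi : i < N m) :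
    Pr m (dl (jj (m + 1) z)) i = dl (jj m z) i := by
  rw [Pr_good m _ h.1 h.2 i hi, jj_mod]

theorem F_spec (z : ℤ_[2]) (K : ℕ) (h : ∀ m, K ≤ m → Gd m z) :
    Comp (F z) ∧ Tendsto (fun n => vec n (dl (jj n z))) atTop (𝓝 (F z)) ∧
      ∀ m, K ≤ m → ∀ j, j < N m → nu (F z) m j = dl (jj m z) j := by
  have hs : Summable fun n => wt (K + n + 1) (jj (K + n + 1) z) := by
    refine (summable_nat_add_iff 1).1 ?_
    have e : (fun n => wt (K + (n + 1) + 1) (jj (K + (n + 1) + 1) z)) =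
        fun n => (1 / 2 : ℝ) ^ (K + 2) * (1 / 2) ^ n := by
      funext n
      have := point_wt (K + n) z (h _ (by omega)) (h (K + n) (by omega)).2
      rw [← pow_add, show K + 2 + n = K + n + 2 by ring]
      exact this
    rw [e]
    exact summable_geometric_two.mul_left _
  obtain ⟨y, hy1, hy2, hy3, -⟩ := chain K (fun m => dl (jj m z))
    (fun m hm i hi => point_pr m z (h m hm) i hi) _ hs
    (fun n => (norm_lev_dl _ _ (jj_lt _ z)).le)
  have hF : F z = y := hy2.limUnder_eq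
  rw [hF]
  exact ⟨hy1, hy2, hy3⟩

lemma point_sum (l : ℕ) (b : ℝ) :
    HasSum (fun n : ℕ => (1 / 2 : ℝ) ^ (n + 1) * b + (1 / 2) ^ (l + n + 1)) (b + (1 / 2) ^ l) := by
  have h1 := hasSum_geometric_two.mul_left (b / 2)
  have h2 := hasSum_geometric_two.mul_left ((1 / 2 : ℝ) ^ l / 2)
  have h3 := h1.add h2
  have e1 : (fun n : ℕ => (1 / 2 : ℝ) ^ (n + 1) * b + (1 / 2) ^ (l + n + 1)) =
      fun n : ℕ => b / 2 * (1 / 2 : ℝ) ^ n + (1 / 2 : ℝ) ^ l / 2 * (1 / 2) ^ n := by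
    funext n
    rw [pow_succ, pow_succ, pow_add]
    ring
  have e2 : b + (1 / 2 : ℝ) ^ l = b / 2 * 2 + (1 / 2 : ℝ) ^ l / 2 * 2 := by ring
  rw [e1, e2]
  exact h3

lemma point_near (l k : ℕ) (u : ℕ → ℂ) (hlk : l ≤ k)
    (hp : ∀ i, i < N k → pat k i = lift l u (k - l) i) (z : ℤ_[2])
    (hz : jj (k + 1) z = 4 * N k - 1) (hg : ∀ m, k + 1 ≤ m → Gd m z) :
    ‖F z - vec l u‖ ≤ ‖lev l u‖ + (1 / 2) ^ l := by
  have hN := N_ge k
  have hB := N_big k
  let a : ℕ → ℕ → ℂ := fun m => if m ≤ k then lift l u (m - l) else dl (jj m z)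
  have ha1 : ∀ m, m ≤ k → a m = lift l u (m - l) := fun m hm => if_pos hm
  have ha2 : ∀ m, k < m → a m = dl (jj m z) := fun m hm => if_neg (by omega)
  have hc : ∀ m, l ≤ m → ∀ i, i < N m → Pr m (a (m + 1)) i = a m i := by
    intro m hm i hi
    rcases lt_trichotomy m k with h | h | h
    · rw [ha1 (m + 1) (by omega), ha1 m h.le, show m + 1 - l = (m - l) + 1 by omega]
      have e : lift l u (m - l + 1) = up m (lift l u (m - l)) := by
        show up (l + (m - l)) (lift l u (m - l)) = _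
        rw [show l + (m - l) = m by omega]
      rw [e, Pr_up m _ i hi]
    · subst h
      rw [ha2 (m + 1) (by omega), ha1 m le_rfl, hz, Pr_pat m i hi, hp i hi]
    · rw [ha2 (m + 1) (by omega), ha2 m h]
      exact point_pr m z (hg m (by omega)) i hi
  have hb : ∀ n, ‖lev (l + n + 1) (a (l + n + 1))‖ ≤
      (1 / 2 : ℝ) ^ (n + 1) * ‖lev l u‖ + (1 / 2) ^ (l + n + 1) := by
    intro n
    have p1 : (0 : ℝ) ≤ (1 / 2 : ℝ) ^ (n + 1) * ‖lev l u‖ := by positivity
    have p2 : (0 : ℝ) ≤ (1 / 2 : ℝ) ^ (l + n + 1) := by positivity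
    by_cases h : l + n + 1 ≤ k
    · rw [ha1 _ h, show l + n + 1 - l = n + 1 by omega]
      have := norm_lev_lift l u (n + 1)
      exact le_trans this (le_add_of_nonneg_right p2)
    · rw [ha2 _ (by omega), norm_lev_dl _ _ (jj_lt _ z)]
      refine le_trans (le_of_eq ?_) (le_add_of_nonneg_left p1)
      by_cases h1 : l + n = k
      · rw [h1, hz]
        exact wt_light1 k _ (Or.inr (by omega))
      · obtain ⟨r, hr⟩ : ∃ r, l + n = r + 1 := ⟨l + n - 1, by omega⟩
        rw [hr]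
        refine point_wt r z (hg _ (by omega)) ?_
        by_cases h2 : r = k
        · rw [h2, hz]; omega
        · exact (hg r (by omega)).2
  obtain ⟨y, -, hy2, -, hy4⟩ := chain l a hc _ (point_sum l ‖lev l u‖).summable hb
  have hy5 : Tendsto (fun n => vec n (dl (jj n z))) atTop (𝓝 y) := by
    refine hy2.congr' ?_
    filter_upwards [eventually_gt_atTop k] with n hn
    rw [ha2 n hn]
  have hF : F z = y := hy5.limUnder_eq
  rw [(point_sum l ‖lev l u‖).tsum_eq, ha1 l hlk, Nat.sub_self] at hy4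
  rw [hF]
  exact hy4

theorem F_close {x : Am} (hx : Comp x) (ε : ℝ) (hε : 0 < ε) :
    ∃ K J, J < N K ∧ ∀ z, jj K z = J → (∀ m, K ≤ m → Gd m z) → ‖F z - x‖ < ε := by
  obtain ⟨h1, h2⟩ := trunc hx
  have he : 0 < ε / 5 := by positivity
  have e1 : ∀ᶠ l in atTop, ‖vec l (nu x l) - x‖ < ε / 5 := by
    have := (Metric.tendsto_nhds.1 h1) _ he
    simpa only [dist_eq_norm] using this
  have e2 : ∀ᶠ l in atTop, ‖lev l (nu x l)‖ < ε / 5 := by
    have := (Metric.tendsto_nhds.1 h2) _ he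
    simpa only [dist_zero_right] using this
  have e3 : ∀ᶠ l : ℕ in atTop, (1 / 2 : ℝ) ^ l < ε / 5 :=
    (tendsto_pow_atTop_nhds_zero_of_lt_one (by norm_num) (by norm_num)).eventually
      (gt_mem_nhds he)
  obtain ⟨l, hl1, hl2, hl3⟩ := (e1.and (e2.and e3)).exists
  have hopen : IsOpen {u : ℕ → ℂ | ‖vec l u - vec l (nu x l)‖ < ε / 5 ∧ ‖lev l u‖ < ε / 5} :=
    (isOpen_lt ((continuous_vec l).sub continuous_const).norm continuous_const).inter
      (isOpen_lt (continuous_lev l).norm continuous_const)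
  obtain ⟨n, hn1, hn2⟩ := (TopologicalSpace.denseRange_denseSeq (ℕ → ℂ)).exists_mem_open hopen
    ⟨nu x l, by simpa using he, hl2⟩
  obtain ⟨k, hlk, hp⟩ := pat_often l n
  have hN := N_ge k
  have hB := N_big k
  refine ⟨k + 1, 4 * N k - 1, by omega, fun z hz hg => ?_⟩
  have h3 := point_near l k (qq n) hlk hp z hz hg
  have h4 : ‖vec l (qq n) - vec l (nu x l)‖ < ε / 5 := hn1
  have h5 : ‖lev l (qq n)‖ < ε / 5 := hn2
  have h6 : F z - x = (F z - vec l (qq n)) + (vec l (qq n) - vec l (nu x l)) +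
      (vec l (nu x l) - x) := by abel
  have h7 := norm_add₃_le (a := F z - vec l (qq n)) (b := vec l (qq n) - vec l (nu x l))
    (c := vec l (nu x l) - x)
  rw [h6]
  linarith

end Pool.Agent.Lib.MP_e13bdd_an.FS
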