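import Pool.Agent.Lib.MP_e13bdd_an.FS.Lev

/-! Limits of compatible chains. -/

namespace Pool.Agent.Lib.MP_e13bdd_an.FS

open Filter Topology

lemma chain_hi (n : ℕ) (v : ℕ → ℂ) (k j : ℕ) (h : n < k ∨ N k ≤ j) : nu (vec n v) k j = 0 := by
  induction n generalizing v with
  | zero =>
    rw [vec, nu_lev, if_neg]
    rintro ⟨rfl, h2⟩
    omega
  | succ n ih =>
    rw [vec, nu_add, ih _ (by omega), nu_lev, if_neg, add_zero]
    rintro ⟨rfl, h2⟩
    omega

lemma chain_top (n : ℕ) (v : ℕ → ℂ) (j : ℕ) (h : j < N n) : nu (vec n v) n j = v j := by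
  cases n with
  | zero => rw [vec, nu_lev, if_pos ⟨rfl, h⟩]
  | succ n => rw [vec, nu_add, chain_hi _ _ _ _ (by omega), nu_lev, if_pos ⟨rfl, h⟩, zero_add]

lemma chain_low (n : ℕ) (v : ℕ → ℂ) (k i : ℕ) (hk : k < n) (hi : i < N k) :
    nu (vec n v) k i = Pr k (nu (vec n v) (k + 1)) i := by
  induction n generalizing v with
  | zero => omega
  | succ n ih =>
    have e : ∀ l j, l ≤ n → nu (vec (n + 1) v) l j = nu (vec n (Pr n v)) l j := fun l j hl => by
      rw [vec, nu_add, nu_lev, if_neg (by omega), add_zero]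
    rcases (Nat.lt_succ_iff.1 hk).eq_or_lt with rfl | hk'
    · rw [e _ _ le_rfl, chain_top _ _ _ hi]
      exact Pr_congr _ _ _ (fun j _ hj => (chain_top _ _ _ hj).symm) i hi
    · rw [e _ _ hk'.le, ih _ hk']
      exact Pr_congr _ _ _ (fun j _ _ => (e _ _ hk').symm) i hi

theorem chain (K : ℕ) (a : ℕ → ℕ → ℂ)
    (hc : ∀ m, K ≤ m → ∀ i, i < N m → Pr m (a (m + 1)) i = a m i) (c : ℕ → ℝ) (hs : Summable c)
    (hb : ∀ n, ‖lev (K + n + 1) (a (K + n + 1))‖ ≤ c n) :
    ∃ y : Am, Comp y ∧ Tendsto (fun n => vec n (a n)) atTop (𝓝 y) ∧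
      (∀ m, K ≤ m → ∀ j, j < N m → nu y m j = a m j) ∧ ‖y - vec K (a K)‖ ≤ ∑' n, c n := by
  have h1 : ∀ n, K ≤ n → vec (n + 1) (a (n + 1)) = vec n (a n) + lev (n + 1) (a (n + 1)) :=
    fun n hn => by rw [vec, vec_congr n _ _ (hc n hn)]
  have h2 : ∀ n, vec (n + K) (a (n + K)) =
      vec K (a K) + ∑ i ∈ Finset.range n, lev (K + i + 1) (a (K + i + 1)) := fun n => by
    rw [add_comm n K]
    induction n with
    | zero => simp
    | succ n ih => rw [← add_assoc, h1 _ (by omega), ih, Finset.sum_range_succ, add_assoc]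
  have h3 : Summable fun i => lev (K + i + 1) (a (K + i + 1)) := Summable.of_norm_bounded hs hb
  have h4 : Tendsto (fun n => vec n (a n)) atTop
      (𝓝 (vec K (a K) + ∑' i, lev (K + i + 1) (a (K + i + 1)))) := by
    rw [← tendsto_add_atTop_iff_nat K]
    simp only [h2]
    exact tendsto_const_nhds.add h3.hasSum.tendsto_sum_nat
  refine ⟨_, ?_, h4, fun m hm j hj => ?_, ?_⟩
  · generalize vec K (a K) + ∑' i, lev (K + i + 1) (a (K + i + 1)) = y at h4
    have h5 : ∀ k j, Tendsto (fun n => nu (vec n (a n)) k j) atTop (𝓝 (nu y k j)) := fun k j =>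
      ((continuous_nu k j).tendsto y).comp h4
    refine ⟨fun k j hj => tendsto_nhds_unique (h5 k j) ?_, fun k i hi =>
      tendsto_nhds_unique (h5 k i) ?_⟩
    · simp only [chain_hi _ _ k j (Or.inr hj)]
      exact tendsto_const_nhds
    · have h6 : Tendsto (fun n => Pr k (nu (vec n (a n)) (k + 1)) i) atTop
          (𝓝 (Pr k (nu y (k + 1)) i)) :=
        (((continuous_apply i).comp (continuous_Pr k)).tendsto _).comp
          (tendsto_pi_nhds.2 (h5 (k + 1)))
      refine h6.congr' ?_
      filter_upwards [eventually_gt_atTop k] with n hn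
      exact (chain_low _ _ _ _ hn hi).symm
  · refine tendsto_nhds_unique (((continuous_nu m j).tendsto _).comp h4) ?_
    refine tendsto_const_nhds.congr' ?_
    filter_upwards [eventually_ge_atTop m] with n hn
    induction n, hn using Nat.le_induction with
    | base => exact (chain_top _ _ _ hj).symm
    | succ n hn ih =>
      simp only [Function.comp] at ih ⊢
      rw [h1 n (hm.trans hn), nu_add, nu_lev, if_neg (by omega), add_zero, ih]
  · rw [add_sub_cancel_left]
    exact tsum_of_norm_bounded hs.hasSum hb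

theorem trunc {x : Am} (hx : Comp x) : Tendsto (fun n => vec n (nu x n)) atTop (𝓝 x) ∧
    Tendsto (fun n => lev n (nu x n)) atTop (𝓝 0) := by
  have h1 : ∀ n, vec n (nu x n) = ∑ k ∈ Finset.range (n + 1), lev k (nu x k) := fun n => by
    induction n with
    | zero => simp [vec]
    | succ n ih =>
      rw [vec, vec_congr n _ _ fun j hj => (hx.2 n j hj).symm, ih, Finset.sum_range_succ _ (n + 1)]
  have e : ∀ k j, (wt k j : ℂ) * nu x k j = x (k, j) := fun k j => by
    rw [nu, mul_div_cancel₀ _ (wt_ne k j)]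
  have h2 : HasSum (fun k => lev k (nu x k)) x := by
    refine (lp.hasSum_single (by norm_num) x).prod_fiberwise fun k => ?_
    simp only [lev, e]
    refine hasSum_sum_of_ne_finset_zero fun j hj => ?_
    rw [← e, hx.1 k j (by simpa using hj), mul_zero]
    exact lp.single_zero 2 _
  refine ⟨?_, h2.summable.tendsto_atTop_zero⟩
  simp only [h1]
  exact h2.tendsto_sum_nat.comp (tendsto_add_atTop_nat 1)

end Pool.Agent.Lib.MP_e13bdd_an.FS
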