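import Pool.Agent.Lib.MP_e13bdd_an.FS.Oper

/-! Uniqueness from the high levels, and absence of eigenvectors. -/

namespace Pool.Agent.Lib.MP_e13bdd_an.FS

theorem comp_ext {x y : Am} (hx : Comp x) (hy : Comp y) (K : ℕ)
    (h : ∀ m, K ≤ m → ∀ j, 1 ≤ j → j < N m → nu x m j = nu y m j) : x = y := by
  have step : ∀ m, (∀ j, N m ≤ j → j < N (m + 1) → nu x (m + 1) j = nu y (m + 1) j) →
      ∀ j, nu x m j = nu y m j := by
    intro m hm j
    rcases lt_or_ge j (N m) with hj | hj
    · rw [hx.2 m j hj, hy.2 m j hj]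
      exact Pr_congr m _ _ hm j hj
    · rw [hx.1 m j hj, hy.1 m j hj]
  have all : ∀ n m, K ≤ m + n → ∀ j, nu x m j = nu y m j := by
    intro n
    induction n with
    | zero =>
      intro m hm
      refine step m fun j h1 h2 => h (m + 1) (by omega) j ?_ h2
      have := N_ge m
      omega
    | succ n ih => exact fun m hm => step m fun j _ _ => ih (m + 1) (by omega) j
  exact ext_nu fun k j => all K k (by omega) j

lemma eigen_tendsto (x : Am) (φ : ℕ → ℕ) :
    Filter.Tendsto (fun k => ‖x (k + 1, φ k)‖) Filter.atTop (nhds 0) := by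
  have h1 := (lp.hasSum_single (by norm_num) x).summable.tendsto_cofinite_zero.norm
  simp only [lp.norm_single (show (0 : ENNReal) < 2 by norm_num), norm_zero] at h1
  have h2 : Function.Injective fun k => (k + 1, φ k) := fun a b e => by
    have := congrArg Prod.fst e
    simpa using this
  rw [← Nat.cofinite_eq_atTop]
  exact h1.comp h2.tendsto_cofinite

theorem no_eigen {x : Am} (hx : Comp x) (c : ℂ) (h : ∀ k j, sh x k j = c * nu x k j) : x = 0 := by
  have rel : ∀ k j, j + 1 < N k → ‖nu x k j‖ = ‖c‖ * ‖nu x k (j + 1)‖ := by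
    intro k j hj
    have := h k (j + 1)
    rw [sh, if_pos hj, if_neg (Nat.succ_ne_zero j), Nat.add_sub_cancel] at this
    rw [this, norm_mul]
  have up : ‖c‖ ≤ 1 → ∀ k j d, j + d < N k → ‖nu x k j‖ ≤ ‖nu x k (j + d)‖ := by
    intro hc k j d
    induction d with
    | zero => exact fun _ => le_rfl
    | succ d ih =>
      intro hd
      refine (ih (by omega)).trans ?_
      rw [rel k (j + d) hd]
      exact mul_le_of_le_one_left (norm_nonneg _) hc
  have dn : 1 ≤ ‖c‖ → ∀ k j d, j + d < N k → ‖nu x k (j + d)‖ ≤ ‖nu x k j‖ := by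
    intro hc k j d
    induction d with
    | zero => exact fun _ => le_rfl
    | succ d ih =>
      intro hd
      refine le_trans ?_ (ih (by omega))
      rw [rel k (j + d) hd]
      exact le_mul_of_one_le_left (norm_nonneg _) hc
  obtain ⟨b, hb⟩ : ∃ b : ℕ → ℝ,
      b = fun k => ‖x (k + 1, N k - 1)‖ + ‖x (k + 1, N (k + 1) - 1)‖ := ⟨_, rfl⟩
  have b0 : ∀ k, 0 ≤ b k := fun k => by
    rw [hb]
    positivity
  have heavy : ∀ k j, N k ≤ j → j < N (k + 1) →
      (N (k + 1) : ℝ) ^ 2 * ‖nu x (k + 1) j‖ ≤ b k := by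
    intro k j h1 h2
    have e1 := norm_nu x (k + 1) (N k - 1)
    have e2 := norm_nu x (k + 1) (N (k + 1) - 1)
    rw [wt_heavy _ _ (dd_first k)] at e1
    rw [wt_heavy _ _ (dd_top k)] at e2
    have p1 := norm_nonneg (x (k + 1, N k - 1))
    have p2 := norm_nonneg (x (k + 1, N (k + 1) - 1))
    have hN : (0 : ℝ) ≤ (N (k + 1) : ℝ) ^ 2 := by positivity
    simp only [hb]
    rcases le_total ‖c‖ 1 with hc | hc
    · have := up hc (k + 1) j (N (k + 1) - 1 - j) (by omega)
      rw [show j + (N (k + 1) - 1 - j) = N (k + 1) - 1 by omega] at this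
      have := mul_le_mul_of_nonneg_left this hN
      linarith
    · have := dn hc (k + 1) (N k - 1) (j - (N k - 1)) (by omega)
      rw [show N k - 1 + (j - (N k - 1)) = j by omega] at this
      have := mul_le_mul_of_nonneg_left this hN
      linarith
  have hNpos : ∀ k, (0 : ℝ) < N k := fun k => by
    have := N_ge k
    exact_mod_cast (by omega : 0 < N k)
  have down : ∀ k (B : ℝ), 0 ≤ B →
      (∀ j, N k ≤ j → j < N (k + 1) → (N (k + 1) : ℝ) ^ 2 * ‖nu x (k + 1) j‖ ≤ B) →
      ∀ i, i < N k → (N k : ℝ) ^ 2 * ‖nu x k i‖ ≤ B := by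
    intro k B hB hj i hi
    have hp := hNpos k
    have hq := hNpos (k + 1)
    have h1 := Pr_bound k (nu x (k + 1)) (B / (N (k + 1) : ℝ) ^ 2) (by positivity)
      (fun j a b => by
        rw [le_div_iff₀ (by positivity), mul_comm]
        exact hj j a b) i hi
    rw [← hx.2 k i hi, N_succ] at h1
    refine (mul_le_mul_of_nonneg_left h1 (by positivity)).trans (le_of_eq ?_)
    push_cast
    field_simp
  have all : ∀ n k i, i < N k → (N k : ℝ) ^ 2 * ‖nu x k i‖ ≤ b (k + n) := by
    intro n
    induction n with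
    | zero => exact fun k => down k _ (b0 _) (heavy k)
    | succ n ih =>
      intro k
      refine down k _ (b0 _) fun j _ h2 => ?_
      have := ih (k + 1) j h2
      rwa [show k + 1 + n = k + (n + 1) by omega] at this
  have hlim : Filter.Tendsto b Filter.atTop (nhds 0) := by
    have := (eigen_tendsto x fun k => N k - 1).add (eigen_tendsto x fun k => N (k + 1) - 1)
    rw [add_zero] at this
    rw [hb]
    exact this
  refine ext_nu fun k i => ?_
  rw [nu_zero]
  rcases lt_or_ge i (N k) with hi | hi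
  · have h1 : (N k : ℝ) ^ 2 * ‖nu x k i‖ ≤ 0 := by
      refine ge_of_tendsto hlim (Filter.eventually_atTop.2 ⟨k, fun m hm => ?_⟩)
      have := all (m - k) k i hi
      rwa [show k + (m - k) = m by omega] at this
    have hp := hNpos k
    exact norm_le_zero_iff.1 (le_of_mul_le_mul_left (by rwa [mul_zero]) (by positivity))
  · exact hx.1 k i hi

end Pool.Agent.Lib.MP_e13bdd_an.FS
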