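import Pool.Agent.Lib.MP_e13bdd_an.FS.Point
import Pool.Agent.Lib.MP_e13bdd_an.FS.Eigen

/-! The measure, and the transfer to any separable infinite dimensional Hilbert space. -/

namespace Pool.Agent.Lib.MP_e13bdd_an.FS

open MeasureTheory TopologicalSpace Filter Topology

universe u

noncomputable instance instMeasAm : MeasurableSpace Am := borel _
instance instBorelAm : BorelSpace Am := ⟨rfl⟩

lemma final_ae {p : ℤ_[2] → Prop} (h : ∀ᵐ z ∂PP, p z) : ∀ᵐ z ∂PP, p (1 + z) :=
  ergodic_add.toMeasurePreserving.quasiMeasurePreserving.ae h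

lemma final_ae_shift : ∀ᵐ z ∂PP, ∃ K, ∀ m, K ≤ m → Gd m (1 + z) :=
  final_ae (p := fun z => ∃ K, ∀ m, K ≤ m → Gd m z) ae_gd

lemma final_aemeasurable_F : AEMeasurable F PP := by
  refine aemeasurable_of_tendsto_metrizable_ae'
    (f := fun n z => vec n (dl (jj n z))) (fun n => ?_) ?_
  · exact ((jj_locConst n).comp fun j => vec n (dl j)).continuous.measurable.aemeasurable
  · filter_upwards [ae_gd] with z hz
    obtain ⟨K, hK⟩ := hz
    exact (F_spec z K hK).2.1

lemma final_step (T : Am →L[ℂ] Am) (hT : ∀ x k j, nu (T x) k j = sh x k j) :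
    ∀ᵐ z ∂PP, T (F z) = F (1 + z) := by
  filter_upwards [ae_gd, final_ae_shift] with z hz hz1
  obtain ⟨K, hK⟩ := hz
  obtain ⟨L, hL⟩ := hz1
  obtain ⟨h1, -, h2⟩ := F_spec z K hK
  obtain ⟨h3, -, h4⟩ := F_spec (1 + z) L hL
  refine comp_ext (comp_sh h1 (hT _)) h3 (max K L) fun m hm j hj1 hj => ?_
  rw [hT, h4 m (le_of_max_le_right hm) j hj]
  unfold sh
  rw [if_pos hj, if_neg (by omega), h2 m (le_of_max_le_left hm) (j - 1) (by omega)]
  unfold dl
  simp only [jj_succ m z j hj1 hj]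

lemma final_ne : ∀ᵐ z ∂PP, F z ≠ 0 := by
  filter_upwards [ae_gd] with z hz h0
  obtain ⟨K, hK⟩ := hz
  have := (F_spec z K hK).2.2 K le_rfl _ (jj_lt K z)
  rw [h0, nu_zero] at this
  simp [dl] at this

theorem model : ∃ (S : Submodule ℂ Am) (_ : IsClosed (S : Set Am)) (T : S →L[ℂ] S)
    (μ : Measure S), IsProbabilityMeasure μ ∧ Ergodic T μ ∧ μ {0} = 0 ∧
      (∀ U : Set S, IsOpen U → U.Nonempty → μ U ≠ 0) ∧
      ∀ (c : ℂ) (x : S), T x = c • x → x = 0 := by
  classical
  obtain ⟨S, hS, hmem⟩ := exists_Hs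
  obtain ⟨T, hT⟩ := exists_T
  obtain ⟨TS, hTS⟩ : ∃ TS : S →L[ℂ] S, ∀ x : S, (TS x : Am) = T x :=
    ⟨(T.comp S.subtypeL).codRestrict S fun x => (hmem _).2 (comp_sh ((hmem _).1 x.2) (hT _)),
      fun _ => rfl⟩
  obtain ⟨G, hG0⟩ : ∃ G : ℤ_[2] → S, ∀ z, F z ∈ S → (G z : Am) = F z :=
    ⟨fun z => if h : F z ∈ S then ⟨F z, h⟩ else 0, fun z h => by simp only [dif_pos h]⟩
  have hG : ∀ᵐ z ∂PP, (G z : Am) = F z := by
    filter_upwards [ae_gd] with z hz
    obtain ⟨K, hK⟩ := hz
    exact hG0 z ((hmem _).2 (F_spec z K hK).1)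
  have hG1 : ∀ᵐ z ∂PP, (G (1 + z) : Am) = F (1 + z) :=
    final_ae (p := fun z => (G z : Am) = F z) hG
  have hm : AEMeasurable G PP := by
    have h1 : AEMeasurable (fun z => (G z : Am)) PP :=
      final_aemeasurable_F.congr (hG.mono fun z hz => hz.symm)
    exact h1.subtype_mk (s := (S : Set Am)) (hfs := fun z => (G z).2)
  have hstep : ∀ᵐ z ∂PP, TS (G z) = G (1 + z) := by
    filter_upwards [hG, hG1, final_step T hT] with z h1 h2 h3
    apply Subtype.ext
    rw [hTS, h1, h2, h3]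
  have hp : IsProbabilityMeasure (PP.map G) := Measure.isProbabilityMeasure_map hm
  have hmap : (PP.map G).map TS = PP.map G := by
    rw [AEMeasurable.map_map_of_aemeasurable TS.continuous.measurable.aemeasurable hm]
    have h1 : (TS ∘ G) =ᵐ[PP] G ∘ fun z : ℤ_[2] => 1 + z := hstep
    have h2 := ergodic_add.toMeasurePreserving.map_eq
    rw [Measure.map_congr h1, ← AEMeasurable.map_map_of_aemeasurable, h2]
    · rw [h2]; exact hm
    · exact ergodic_add.toMeasurePreserving.measurable.aemeasurable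
  refine ⟨S, hS, TS, PP.map G, hp, ⟨⟨TS.continuous.measurable, hmap⟩, ⟨fun s hs hs' => ?_⟩⟩,
    ?_, fun U hU hne => ?_, fun c x hx => ?_⟩
  · have h1 : EventuallyConst (G ⁻¹' s) (ae PP) := by
      refine ergodic_add.quasiErgodic.aeconst_set₀ (hm.nullMeasurable hs) ?_
      filter_upwards [hstep] with z hz
      show (G (1 + z) ∈ s) = (G z ∈ s)
      rw [← hz, ← Set.mem_preimage, hs']
    rcases eventuallyConst_set.1 h1 with h | h
    · exact eventuallyConst_set.2 (Or.inl ((ae_map_iff hm hs).2 h))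
    · exact eventuallyConst_set.2 (Or.inr ((ae_map_iff hm hs.compl).2 h))
  · rw [Measure.map_apply_of_aemeasurable hm (measurableSet_singleton 0)]
    refine measure_mono_null ?_ (hG.and final_ne)
    intro z hz hg
    apply hg.2
    rw [← hg.1, show G z = 0 from hz]
    rfl
  · obtain ⟨x, hx⟩ := hne
    obtain ⟨ε, hε, hb⟩ := Metric.isOpen_iff.1 hU x hx
    obtain ⟨K, J, hJ, hcl⟩ := F_close ((hmem _).1 x.2) ε hε
    rw [Measure.map_apply_of_aemeasurable hm hU.measurableSet]
    intro h0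
    refine pos_E K J hJ (measure_mono_null ?_ h0)
    intro z hz
    apply hb
    rw [Metric.mem_ball, Subtype.dist_eq, dist_eq_norm,
      hG0 z ((hmem _).2 (F_spec z K hz.2).1)]
    exact hcl z hz.1 hz.2
  · apply Subtype.ext
    refine no_eigen ((hmem _).1 x.2) c fun k j => ?_
    rw [← hT, ← hTS, hx, ← nu_smul]
    rfl

theorem full (H : Type u) [NormedAddCommGroup H] [InnerProductSpace ℂ H] [CompleteSpace H]
    [SeparableSpace H] [MeasurableSpace H] [BorelSpace H] (h : ¬ FiniteDimensional ℂ H) :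
    ∃ (T : H →L[ℂ] H) (μ : Measure H), IsProbabilityMeasure μ ∧
      (∀ A, MeasurableSet A → μ (T ⁻¹' A) = μ A) ∧ μ {0} = 0 ∧
      (∀ A, MeasurableSet A → T ⁻¹' A = A → μ A = 0 ∨ μ A = 1) ∧
      (∀ U, IsOpen U → U.Nonempty → 0 < μ U) ∧
      ∀ (c : ℂ) (x : H), T x = c • x → x = 0 := by
  obtain ⟨S, hS, TS, μ, hμ, herg, h0, hsupp, hno⟩ := model
  have := separable_Am
  have : SecondCountableTopology Am := UniformSpace.secondCountable_of_separable _
  have : CompleteSpace S := hS.completeSpace_coe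
  have hinf : ¬ FiniteDimensional ℂ S := by
    intro hf
    have : Nontrivial S := by
      by_contra hn
      have hs := not_nontrivial_iff_subsingleton.1 hn
      rw [Subsingleton.eq_univ_of_nonempty (Set.singleton_nonempty (0 : S)), measure_univ] at h0
      exact one_ne_zero h0
    obtain ⟨c, hc⟩ := Module.End.exists_eigenvalue (TS : Module.End ℂ S)
    obtain ⟨x, hx⟩ := hc.exists_hasEigenvector
    exact hx.2 (hno c x hx.apply_eq_smul)
  obtain ⟨e₁⟩ := iso_l2 S hinf
  obtain ⟨e₂⟩ := iso_l2 H h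
  let e : S ≃L[ℂ] H := (e₁.trans e₂.symm).toContinuousLinearEquiv
  have hm : Measurable e := e.continuous.measurable
  let T : H →L[ℂ] H := (e : S →L[ℂ] H) ∘L TS ∘L (e.symm : H →L[ℂ] S)
  have hT : ∀ x, T x = e (TS (e.symm x)) := fun _ => rfl
  have hp : IsProbabilityMeasure (μ.map e) := Measure.isProbabilityMeasure_map hm.aemeasurable
  have he : Ergodic T (μ.map e) :=
    MeasurePreserving.ergodic_of_ergodic_semiconj ⟨hm, rfl⟩ herg T.continuous.measurable
      fun x => by rw [hT, e.symm_apply_apply]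
  refine ⟨T, μ.map e, hp, fun A hA => he.measure_preimage hA.nullMeasurableSet, ?_,
    fun A hA hTA => he.prob_eq_zero_or_one hA hTA, fun U hU hne => ?_, fun c x hx => ?_⟩
  · rw [Measure.map_apply hm (measurableSet_singleton 0)]
    refine measure_mono_null (fun x hx => ?_) h0
    exact e.injective ((show e x = 0 from hx).trans (map_zero e).symm)
  · rw [Measure.map_apply hm hU.measurableSet]
    exact pos_iff_ne_zero.2 (hsupp _ (hU.preimage e.continuous) (hne.preimage e.surjective))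
  · have h1 : TS (e.symm x) = c • e.symm x :=
      e.injective (by rw [← hT, hx, map_smul, e.apply_symm_apply])
    rw [← e.apply_symm_apply x, hno c _ h1, map_zero]

end Pool.Agent.Lib.MP_e13bdd_an.FS
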