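import Pool.Agent.Lib.MP_e13bdd_an.FS.Final
import Pool.Agent.Shared.Ergodic.Birkhoff

/-! An ergodic measure with full support gives an orbit visiting every open set with positive
lower density. -/

namespace Pool.Agent.Lib.MP_e13bdd_an.FS

open MeasureTheory TopologicalSpace Filter Topology Finset Pool.Agent.Shared.Ergodic

universe u

section
variable {X : Type*} [MeasurableSpace X] {μ : Measure X}

lemma freq_integral_iterate {T : X → X} (hT : MeasurePreserving T μ μ) {w : X → ℝ}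
    (hw : AEStronglyMeasurable w μ) (n : ℕ) : ∫ x, w (T^[n] x) ∂μ = ∫ x, w x ∂μ := by
  have h := hT.iterate n
  rw [← integral_map h.measurable.aemeasurable (h.map_eq.symm ▸ hw), h.map_eq]

lemma freq_birkhoff [IsProbabilityMeasure μ] {T : X → X} (hT : Ergodic T μ) {f : X → ℝ}
    (hf : Measurable f) (C : ℝ) (hC : ∀ x, |f x| ≤ C) :
    ∀ᵐ x ∂μ, Tendsto (avg T f x) atTop (𝓝 (∫ x, f x ∂μ)) := by
  have hp := hT.toMeasurePreserving
  obtain ⟨c, hc⟩ := hT.toPreErgodic.ae_eq_const_of_ae_eq_comp (measurable_upper hp.measurable hf)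
    (funext fun x => upper_shift T C hC x)
  have h1 : ∀ᵐ x ∂μ, Tendsto (avg T f x) atTop (𝓝 c) := by
    filter_upwards [birkhoff_real hp hf C hC, hc] with x ⟨L, hL⟩ hx
    have : upper T f x = L := hL.limsup_eq
    rw [this] at hx
    exact (show L = c from hx) ▸ hL
  have h2 := tendsto_integral_of_dominated_convergence (μ := μ) (F := fun N x => avg T f x N)
    (f := fun _ => c) (fun _ => C)
    (fun N => (measurable_avg hp.measurable hf N).aestronglyMeasurable) (integrable_const C)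
    (fun N => Eventually.of_forall fun x => abs_avg_le T C hC x N) h1
  have h3 : ∀ᶠ N : ℕ in atTop, ∫ x, avg T f x N ∂μ = ∫ x, f x ∂μ := by
    filter_upwards [eventually_gt_atTop 0] with N hN
    have hN' : (N : ℝ) ≠ 0 := by exact_mod_cast hN.ne'
    simp only [avg]
    rw [integral_const_mul, integral_finsetSum (f := fun n x => f (T^[n] x)) _ fun n _ =>
      integrable_of_bdd (hf.comp (hp.measurable.iterate n)) C fun x => hC _]
    simp only [freq_integral_iterate hp hf.aestronglyMeasurable, sum_const, card_range,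
      nsmul_eq_mul]
    field_simp
  have h4 : c = ∫ x, f x ∂μ := by
    have := tendsto_nhds_unique (h2.congr' h3) tendsto_const_nhds
    simpa using this
  exact h4 ▸ h1

lemma freq_set [IsProbabilityMeasure μ] {T : X → X} (hT : Ergodic T μ) {U : Set X}
    (hU : MeasurableSet U) (hpos : 0 < μ U) :
    ∀ᵐ x ∂μ, ∃ δ : ℝ, 0 < δ ∧
      ∀ᶠ N : ℕ in atTop, δ * N ≤ ({n | n < N ∧ T^[n] x ∈ U}.ncard : ℝ) := by
  classical
  have hf : Measurable (U.indicator fun _ => (1 : ℝ)) := measurable_const.indicator hU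
  have hC : ∀ x, |(U.indicator fun _ => (1 : ℝ)) x| ≤ 1 := fun x => by
    by_cases hx : x ∈ U <;> simp [hx]
  have hr : 0 < μ.real U := ENNReal.toReal_pos hpos.ne' (measure_ne_top _ _)
  filter_upwards [freq_birkhoff hT hf 1 hC] with x hx
  rw [integral_indicator hU] at hx
  simp only [integral_const, smul_eq_mul, mul_one, MeasurableSet.univ, measureReal_restrict_apply,
    Set.univ_inter] at hx
  refine ⟨μ.real U / 2, by positivity, ?_⟩
  filter_upwards [hx.eventually (lt_mem_nhds (half_lt_self hr)), eventually_gt_atTop 0]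
    with N hN hN0
  have hN' : (0 : ℝ) < N := by exact_mod_cast hN0
  rw [avg, lt_inv_mul_iff₀ hN'] at hN
  have h1 : {n | n < N ∧ T^[n] x ∈ U} = ((range N).filter fun n => T^[n] x ∈ U : Finset ℕ) := by
    ext n; simp
  rw [h1, Set.ncard_coe_finset, card_filter]
  push_cast
  simp only [Set.indicator_apply] at hN
  linarith

lemma freq_point [TopologicalSpace X] [SecondCountableTopology X] [BorelSpace X]
    [IsProbabilityMeasure μ] {T : X → X} (hT : Ergodic T μ)
    (hs : ∀ U, IsOpen U → U.Nonempty → 0 < μ U) :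
    ∃ x, ∀ U, IsOpen U → U.Nonempty → ∃ δ : ℝ, 0 < δ ∧
      ∀ᶠ N : ℕ in atTop, δ * N ≤ ({n | n < N ∧ T^[n] x ∈ U}.ncard : ℝ) := by
  have h1 : ∀ᵐ x ∂μ, ∀ V ∈ countableBasis X, ∃ δ : ℝ, 0 < δ ∧
      ∀ᶠ N : ℕ in atTop, δ * N ≤ ({n | n < N ∧ T^[n] x ∈ V}.ncard : ℝ) := by
    rw [ae_ball_iff (countable_countableBasis X)]
    intro V hV
    have ho := isOpen_of_mem_countableBasis hV
    exact freq_set hT ho.measurableSet (hs V ho (nonempty_of_mem_countableBasis hV))
  obtain ⟨x, hx⟩ := h1.exists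
  refine ⟨x, fun U hU ⟨y, hy⟩ => ?_⟩
  obtain ⟨V, hV, -, hVU⟩ := (isBasis_countableBasis X).exists_subset_of_mem_open hy hU
  obtain ⟨δ, hδ, h2⟩ := hx V hV
  refine ⟨δ, hδ, h2.mono fun N hN => hN.trans ?_⟩
  have h3 : {n | n < N ∧ T^[n] x ∈ V} ⊆ {n | n < N ∧ T^[n] x ∈ U} :=
    fun n hn => ⟨hn.1, hVU hn.2⟩
  have h4 : {n | n < N ∧ T^[n] x ∈ U} ⊆ {n | n < N} := fun n hn => hn.1
  exact_mod_cast Set.ncard_le_ncard h3 ((Set.finite_lt_nat N).subset h4)

end

theorem full_freq (H : Type u) [NormedAddCommGroup H] [InnerProductSpace ℂ H] [CompleteSpace H]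
    [SeparableSpace H] [MeasurableSpace H] [BorelSpace H] (h : ¬ FiniteDimensional ℂ H) :
    ∃ (T : H →L[ℂ] H) (μ : Measure H), IsProbabilityMeasure μ ∧
      (∀ A, MeasurableSet A → μ (T ⁻¹' A) = μ A) ∧ μ {0} = 0 ∧
      (∀ A, MeasurableSet A → T ⁻¹' A = A → μ A = 0 ∨ μ A = 1) ∧
      (∀ U, IsOpen U → U.Nonempty → 0 < μ U) ∧
      (∃ x : H, ∀ U, IsOpen U → U.Nonempty → ∃ δ : ℝ, 0 < δ ∧
        ∀ᶠ N : ℕ in atTop, δ * N ≤ ({n | n < N ∧ (T ^ n) x ∈ U}.ncard : ℝ)) ∧
      ∀ (c : ℂ) (x : H), T x = c • x → x = 0 := by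
  obtain ⟨T, μ, hp, hinv, h0, herg, hs, hno⟩ := full H h
  have : SecondCountableTopology H := UniformSpace.secondCountable_of_separable _
  have hm := T.continuous.measurable
  have he : Ergodic T μ := by
    refine ⟨⟨hm, Measure.ext fun A hA => by rw [Measure.map_apply hm hA, hinv A hA]⟩,
      ⟨fun A hA hTA => eventuallyConst_set.2 ?_⟩⟩
    rcases herg A hA hTA with h1 | h1
    · exact Or.inr (measure_eq_zero_iff_ae_notMem.1 h1)
    · exact Or.inl ((mem_ae_iff_prob_eq_one hA).2 h1)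
  obtain ⟨x, hx⟩ := freq_point he hs
  refine ⟨T, μ, hp, hinv, h0, herg, hs, ⟨x, ?_⟩, hno⟩
  simpa only [FunLike.coe_pow_eq_iterate] using hx

end Pool.Agent.Lib.MP_e13bdd_an.FS
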