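import Pool.Agent.Lib.MP_e13bdd_an.FS.Oper

/-! Vectors living on one level. -/

namespace Pool.Agent.Lib.MP_e13bdd_an.FS

lemma lev_apply (m : ℕ) (v : ℕ → ℂ) (k j : ℕ) :
    lev m v (k, j) = if k = m ∧ j < N m then (wt m j : ℂ) * v j else 0 := by
  unfold lev
  rw [lp.coeFn_sum, Finset.sum_apply]
  by_cases h : k = m ∧ j < N m
  · obtain ⟨rfl, hj⟩ := h
    rw [if_pos ⟨rfl, hj⟩, Finset.sum_eq_single j]
    · exact lp.single_apply_self _ _ _
    · intro b _ hb
      exact lp.single_apply_ne _ _ _ (fun h => hb (Prod.ext_iff.1 h).2.symm)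
    · intro h
      exact absurd (Finset.mem_range.2 hj) h
  · rw [if_neg h]
    refine Finset.sum_eq_zero fun b hb => ?_
    refine lp.single_apply_ne _ _ _ (fun h' => h ?_)
    obtain ⟨h1, h2⟩ := Prod.ext_iff.1 h'
    simp only at h1 h2
    exact ⟨h1, h2 ▸ Finset.mem_range.1 hb⟩

theorem nu_lev (m : ℕ) (v : ℕ → ℂ) (k j : ℕ) :
    nu (lev m v) k j = if k = m ∧ j < N m then v j else 0 := by
  unfold nu
  rw [lev_apply]
  split_ifs with h
  · obtain ⟨rfl, -⟩ := h
    exact mul_div_cancel_left₀ _ (wt_ne k j)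
  · exact zero_div _

theorem norm_lev_sq (m : ℕ) (v : ℕ → ℂ) :
    ‖lev m v‖ ^ 2 = ∑ j ∈ Finset.range (N m), (wt m j * ‖v j‖) ^ 2 := by
  have hinj : Set.InjOn (fun j : ℕ => (m, j)) (Finset.range (N m) : Set ℕ) :=
    fun a _ b _ h => (Prod.ext_iff.1 h).2
  have h := lp.norm_sum_single (E := fun _ : ℕ × ℕ => ℂ) (p := 2) (by norm_num)
    (fun i => (wt i.1 i.2 : ℂ) * v i.2) ((Finset.range (N m)).image fun j : ℕ => (m, j))
  rw [Finset.sum_image hinj, Finset.sum_image hinj] at h
  have h2 : (2 : ENNReal).toReal = ((2 : ℕ) : ℝ) := by norm_num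
  rw [h2] at h
  simp only [Real.rpow_natCast] at h
  unfold lev
  rw [h]
  refine Finset.sum_congr rfl fun j _ => ?_
  rw [norm_mul, Complex.norm_real, Real.norm_of_nonneg (wt_pos m j).le]

theorem norm_lev_dl (m j : ℕ) (hj : j < N m) : ‖lev m (dl j)‖ = wt m j := by
  have h := norm_lev_sq m (dl j)
  rw [Finset.sum_eq_single j] at h
  · have h1 : dl j j = 1 := by simp [dl]
    rw [h1, norm_one, mul_one] at h
    exact (sq_eq_sq₀ (norm_nonneg _) (wt_pos m j).le).1 h
  · intro b _ hb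
    simp [dl, hb]
  · intro h
    exact absurd (Finset.mem_range.2 hj) h

theorem norm_lev_up (m : ℕ) (v : ℕ → ℂ) : ‖lev (m + 1) (up m v)‖ ≤ (1 / 2) * ‖lev m v‖ := by
  have hb := N_big m
  have h1 : ∑ j ∈ Finset.range (N (m + 1)), (wt (m + 1) j * ‖up m v j‖) ^ 2
      = ∑ j ∈ Finset.Ico (N m) (2 * N m), (wt (m + 1) j * ‖up m v j‖) ^ 2 := by
    symm
    refine Finset.sum_subset ?_ ?_
    · intro j hj
      rw [Finset.mem_Ico] at hj
      exact Finset.mem_range.2 (by omega)
    · intro j _ hj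
      rw [Finset.mem_Ico] at hj
      simp [up, hj]
  have h2 : ‖lev (m + 1) (up m v)‖ ^ 2 ≤ ((1 / 2) * ‖lev m v‖) ^ 2 := by
    rw [mul_pow, norm_lev_sq, norm_lev_sq, h1, Finset.sum_Ico_eq_sum_range,
      show 2 * N m - N m = N m by omega, Finset.mul_sum]
    refine Finset.sum_le_sum fun i hi => ?_
    have hi' := Finset.mem_range.1 hi
    have hc : N m ≤ N m + i ∧ N m + i < 2 * N m := ⟨by omega, by omega⟩
    have hu : up m v (N m + i) = v i := by
      unfold up
      rw [if_pos hc, Nat.add_sub_cancel_left]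
    rw [hu, wt_light1 m _ (Or.inl hc), ← mul_pow]
    have hw := wt_ge m i
    have hn := norm_nonneg (v i)
    refine pow_le_pow_left₀ (by positivity) ?_ 2
    rw [pow_succ, ← mul_assoc]
    refine mul_le_mul_of_nonneg_right ?_ hn
    linarith
  exact (sq_le_sq₀ (norm_nonneg _) (by positivity)).1 h2

theorem norm_lev_lift (l : ℕ) (u : ℕ → ℂ) (n : ℕ) :
    ‖lev (l + n) (lift l u n)‖ ≤ (1 / 2) ^ n * ‖lev l u‖ := by
  induction n with
  | zero => simp [lift]
  | succ n ih =>
    have h := norm_lev_up (l + n) (lift l u n)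
    have e : lev (l + (n + 1)) (lift l u (n + 1)) = lev (l + n + 1) (up (l + n) (lift l u n)) := rfl
    rw [e, pow_succ]
    linarith

lemma lev_congr (m : ℕ) (v w : ℕ → ℂ) (h : ∀ j, j < N m → v j = w j) : lev m v = lev m w := by
  unfold lev
  refine Finset.sum_congr rfl fun j hj => ?_
  rw [h j (Finset.mem_range.1 hj)]

theorem vec_congr (n : ℕ) (v w : ℕ → ℂ) (h : ∀ j, j < N n → v j = w j) : vec n v = vec n w := by
  induction n generalizing v w with
  | zero => exact lev_congr 0 v w h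
  | succ n ih =>
    have e1 : vec n (Pr n v) = vec n (Pr n w) :=
      ih _ _ fun i hi => Pr_congr n v w (fun j _ hj => h j hj) i hi
    change vec n (Pr n v) + lev (n + 1) v = vec n (Pr n w) + lev (n + 1) w
    rw [e1, lev_congr (n + 1) v w h]

theorem continuous_lev (m : ℕ) : Continuous (lev m) := by
  unfold lev
  refine continuous_finsetSum _ fun j _ => ?_
  exact (lp.isometry_single (E := fun _ : ℕ × ℕ => ℂ) (p := 2) (m, j)).continuous.comp
    (continuous_const.mul (continuous_apply j))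

theorem continuous_vec (n : ℕ) : Continuous (vec n) := by
  induction n with
  | zero => exact continuous_lev 0
  | succ n ih => exact (ih.comp (continuous_Pr n)).add (continuous_lev (n + 1))

end Pool.Agent.Lib.MP_e13bdd_an.FS
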