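import Pool.Agent.Lib.MP_e13bdd_an.FS.Defs

/-! Heights and weights. -/

namespace Pool.Agent.Lib.MP_e13bdd_an.FS

theorem N_succ (k : ℕ) : N (k + 1) = N k ^ 3 := by
  unfold N ex
  rw [← pow_mul, show k + 1 + 2 = (k + 2) + 1 by ring, pow_succ]

theorem ex_ge (k : ℕ) : 9 ≤ ex k ∧ k + 2 ≤ ex k := by
  unfold ex
  refine ⟨?_, (Nat.lt_pow_self (by norm_num)).le⟩
  calc 9 = 3 ^ 2 := by norm_num
    _ ≤ 3 ^ (k + 2) := Nat.pow_le_pow_right (by norm_num) (by omega)

theorem N_ge (k : ℕ) : 512 ≤ N k := by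
  unfold N
  calc 512 = 2 ^ 9 := by norm_num
    _ ≤ 2 ^ ex k := Nat.pow_le_pow_right (by norm_num) (ex_ge k).1

theorem N_gt (k : ℕ) : k + 1 ≤ N k := by
  have h1 := (ex_ge k).2
  have h2 : ex k < 2 ^ ex k := Nat.lt_pow_self (by norm_num)
  unfold N
  omega

theorem N_big (k : ℕ) : 8 * N k ≤ N (k + 1) := by
  have h := N_ge k
  rw [N_succ]
  calc 8 * N k ≤ (N k * N k) * N k := Nat.mul_le_mul_right _ (by nlinarith)
    _ = N k ^ 3 := by ring

theorem N_dvd (k : ℕ) : N k ∣ N (k + 1) := by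
  rw [N_succ]
  exact dvd_pow_self _ (by norm_num)

theorem ex_small (k : ℕ) : 19 * ex k ≤ N k := by
  have h : ∀ e : ℕ, 9 ≤ e → 19 * e ≤ 2 ^ e := by
    intro e he
    induction e, he using Nat.le_induction with
    | base => norm_num
    | succ n hn ih => rw [pow_succ]; omega
  exact h _ (ex_ge k).1

theorem wt_ge (k j : ℕ) : (1 / 2 : ℝ) ^ k ≤ wt k j := le_max_left _ _

theorem wt_pos (k j : ℕ) : 0 < wt k j := lt_of_lt_of_le (by positivity) (wt_ge k j)

theorem wt_ne (k j : ℕ) : (wt k j : ℂ) ≠ 0 := by exact_mod_cast (wt_pos k j).ne'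

lemma num_last (n c : ℕ) (hn : 0 < n) : ((c + 1) * n - 1) % n = n - 1 := by
  have h : (c + 1) * n - 1 = (n - 1) + c * n := by
    rw [add_mul, one_mul]
    omega
  rw [h, Nat.add_mul_mod_self_right]
  exact Nat.mod_eq_of_lt (by omega)

lemma num_light (a d m : ℕ) (h : a + m ≤ d) : (2 : ℝ) ^ a * (1 / 2) ^ d ≤ (1 / 2) ^ m := by
  have h1 : (1 / 2 : ℝ) ^ d ≤ (1 / 2) ^ (a + m) :=
    pow_le_pow_of_le_one (by norm_num) (by norm_num) h
  have h2 : (2 : ℝ) ^ a * (1 / 2) ^ (a + m) = (1 / 2) ^ m := by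
    rw [pow_add, ← mul_assoc, ← mul_pow]
    norm_num
  rw [← h2]
  exact mul_le_mul_of_nonneg_left h1 (by positivity)

lemma num_one (k : ℕ) : (1 : ℝ) ≤ N k := by
  have := N_ge k
  exact_mod_cast (by omega : 1 ≤ N k)

lemma num_half (k m : ℕ) : (1 / 2 : ℝ) ^ m ≤ (N k : ℝ) ^ 2 :=
  (pow_le_one₀ (by norm_num) (by norm_num)).trans (one_le_pow₀ (num_one k))

lemma num_step (k j : ℕ) : dd k j ≤ dd k (j + 1) + 1 := by
  cases k with
  | zero => simp [dd]
  | succ k =>
    have hn := N_ge k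
    have hlt : j % N k < N k := Nat.mod_lt _ (by omega)
    have hc : (j + 1) % N k = 0 ∨ (j + 1) % N k = j % N k + 1 := by
      rw [Nat.add_mod, Nat.mod_eq_of_lt (show 1 < N k by omega)]
      by_cases h : j % N k + 1 = N k
      · left
        rw [h, Nat.mod_self]
      · right
        exact Nat.mod_eq_of_lt (by omega)
    have h2 : j + 1 = 2 * N k → (j + 1) % N k = 0 := fun h => by
      rw [h, Nat.mul_mod_left]
    have h4 : j + 1 = 4 * N k → (j + 1) % N k = 0 := fun h => by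
      rw [h, Nat.mul_mod_left]
    have h3 : j + 1 = 3 * N k → j % N k = N k - 1 := fun h => by
      have := num_last (N k) 2 (by omega)
      rwa [show (2 + 1) * N k - 1 = j by omega] at this
    simp only [dd]
    generalize (j + 1) % N k = b at *
    generalize j % N k = a at *
    split_ifs <;> omega

lemma num_mult (k c : ℕ) (hc : c = 0 ∨ c = 2 ∨ 4 ≤ c) : dd (k + 1) ((c + 1) * N k - 1) = 0 := by
  have hn := N_ge k
  have h := num_last (N k) c (by omega)
  have h5 : 4 ≤ c → 5 * N k ≤ (c + 1) * N k := fun h => Nat.mul_le_mul_right _ (by omega)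
  have h0 : c = 0 → (c + 1) * N k = N k := fun h => by rw [h]; ring
  have h2 : c = 2 → (c + 1) * N k = 3 * N k := fun h => by rw [h]
  simp only [dd]
  rw [h]
  generalize (c + 1) * N k = b at *
  split_ifs <;> omega

lemma num_cases (k p : ℕ) (h : g k p ≠ 0) : p = N k ∨ (3 * N k ≤ p ∧ p < 4 * N k) ∨
    (5 * N k ≤ p ∧ p + 2 * N k ≤ N (k + 1) ∧ N k ∣ p) := by
  unfold g at h
  split_ifs at h with h1 h2 h3
  · exact Or.inl h1
  · exact Or.inr (Or.inl h2)
  · exact Or.inr (Or.inr h3)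
  · exact absurd rfl h

lemma num_big (k p : ℕ) (h5 : 5 * N k ≤ p) (hd : N k ∣ p) : dd (k + 1) (p - 1) = 0 := by
  have hn := N_ge k
  obtain ⟨b, rfl⟩ := hd
  have hb : 5 ≤ b := by
    rw [mul_comm (N k) b] at h5
    exact Nat.le_of_mul_le_mul_right h5 (by omega)
  have := num_mult k (b - 1) (by omega)
  rwa [show b - 1 + 1 = b by omega, mul_comm] at this

theorem wt_le (k j : ℕ) : wt k j ≤ (N k : ℝ) ^ 2 := by
  refine max_le (num_half k k) ?_
  exact mul_le_of_le_one_right (by positivity) (pow_le_one₀ (by norm_num) (by norm_num))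

theorem wt_succ (k j : ℕ) : wt k (j + 1) ≤ 2 * wt k j := by
  have h0 := wt_pos k j
  refine max_le (by linarith [wt_ge k j]) ?_
  have h1 : (1 / 2 : ℝ) ^ (dd k (j + 1) + 1) ≤ (1 / 2) ^ dd k j :=
    pow_le_pow_of_le_one (by norm_num) (by norm_num) (num_step k j)
  have h2 : (N k : ℝ) ^ 2 * (1 / 2) ^ dd k j ≤ wt k j := le_max_right _ _
  have h3 := mul_le_mul_of_nonneg_left h1 (show (0 : ℝ) ≤ (N k : ℝ) ^ 2 by positivity)
  rw [pow_succ (1 / 2 : ℝ)] at h3
  linarith

theorem wt_heavy (k j : ℕ) (h : dd k j = 0) : wt k j = (N k : ℝ) ^ 2 := by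
  unfold wt
  rw [h, pow_zero, mul_one]
  exact max_eq_right (num_half k k)

theorem dd_g (k p : ℕ) (h : g k p ≠ 0) : dd (k + 1) (p - 1) = 0 := by
  have hn := N_ge k
  rcases num_cases k p h with h1 | h1 | h1
  · have := num_mult k 0 (by omega)
    rwa [zero_add, one_mul, ← h1] at this
  · by_cases h3 : p = 3 * N k
    · have := num_mult k 2 (by omega)
      rwa [show (2 + 1) * N k = p by omega] at this
    · simp only [dd]
      rw [if_neg (by omega), if_pos (by omega)]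
  · exact num_big k p h1.1 h1.2.2

theorem dd_first (k : ℕ) : dd (k + 1) (N k - 1) = 0 := by
  have := num_mult k 0 (by omega)
  rwa [zero_add, one_mul] at this

theorem dd_top (k : ℕ) : dd (k + 1) (N (k + 1) - 1) = 0 := by
  have := N_big k
  exact num_big k _ (by omega) (N_dvd k)

theorem wt_light1 (k j : ℕ) (h : (N k ≤ j ∧ j < 2 * N k) ∨ j + 1 = 4 * N k) :
    wt (k + 1) j = (1 / 2) ^ (k + 1) := by
  have hd : dd (k + 1) j = N k := by
    simp only [dd]
    rw [if_pos h]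
  have hN : (N (k + 1) : ℝ) ^ 2 = 2 ^ (6 * ex k) := by
    rw [N_succ]
    unfold N
    push_cast
    rw [← pow_mul, ← pow_mul]
    ring_nf
  have h1 := ex_small k
  have h2 := ex_ge k
  unfold wt
  rw [hd, hN]
  exact max_eq_left (num_light _ _ _ (by omega))

theorem wt_light2 (k j : ℕ) (h5 : 5 * N (k + 1) ≤ j) (h : j % N (k + 1) + N k < N (k + 1)) :
    wt (k + 2) j = (1 / 2) ^ (k + 2) := by
  have hd : N k ≤ dd (k + 1 + 1) j := by
    simp only [dd]
    rw [if_neg (by omega), if_neg (by omega)]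
    omega
  have hN : (N (k + 1 + 1) : ℝ) ^ 2 = 2 ^ (18 * ex k) := by
    rw [N_succ, N_succ]
    unfold N
    push_cast
    rw [← pow_mul, ← pow_mul, ← pow_mul]
    ring_nf
  have h1 := ex_small k
  have h2 := ex_ge k
  unfold wt
  rw [show k + 2 = k + 1 + 1 from rfl, hN]
  exact max_eq_left (num_light _ _ _ (by omega))

theorem g_supp (k p : ℕ) (h : g k p ≠ 0) : N k ≤ p ∧ p + 2 * N k ≤ N (k + 1) := by
  have hb := N_big k
  rcases num_cases k p h with h1 | h1 | h1 <;> omega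

theorem g_norm (k p : ℕ) : ‖g k p‖ ≤ N k := by
  have h1 := num_one k
  have h2 : ((k : ℝ) + 1) ≤ N k := by exact_mod_cast N_gt k
  unfold g
  split_ifs
  · simpa using h1
  · unfold pat
    split_ifs with h
    · exact h.trans h2
    · simp
  · simpa using h1
  · simp

end Pool.Agent.Lib.MP_e13bdd_an.FS
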